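import Pool.Agent.Q127.Lam.Main

/-!
# Separating antichains of partitions by lambda-choosability (MP_6532c6_co, Q2 and Q1)

The definitions are in `Pool.Agent.Q127.Lam.Defs`. The question Q1 is the case
`A = {lam1, lam2}`, `B = {lam3}`.
-/

set_option autoImplicit false

namespace Pool.Agent.Results.MP_6532c6_co.SeparateAntichain

/-- For all disjoint sets `A`, `B` of partitions such that any two distinct members of `A ∪ B` are
incomparable there is a finite simple graph that is `lam`-choosable for every `lam ∈ A` and not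
`lam`-choosable for every `lam ∈ B`. -/
theorem result (A B : Set (Multiset ℕ)) (hP : ∀ lam ∈ A ∪ B, Q127.Lam.IsPartition lam)
    (hAB : Disjoint A B)
    (hinc : ∀ lam ∈ A ∪ B, ∀ lam' ∈ A ∪ B, lam ≠ lam' → Q127.Lam.Incomparable lam lam') :
    ∃ (n : ℕ) (G : SimpleGraph (Fin n)), (∀ lam ∈ A, Q127.Lam.Choosable G lam) ∧
      ∀ lam ∈ B, ¬ Q127.Lam.Choosable G lam :=
  Q127.Lam.separate_general A B hP hAB hinc

end Pool.Agent.Results.MP_6532c6_co.SeparateAntichain
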